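import Pool.Agent.X144.Cp.Piece2

/-!
# Long pieces in boxes: the pieces
-/

set_option autoImplicit false

namespace Pool.Agent.X144.Cp

open Filter Topology
open Pool.Agent.Y981.L2 (far mass mass_pos mass_mono self_le_mass)

theorem ev_log6 (A : ℝ) : ∃ m0 : ℕ, 3 ≤ m0 ∧ ∀ m : ℕ, m0 ≤ m → A * Real.log m ^ 6 ≤ m := by
  have h1 : Tendsto (fun x : ℝ => Real.log x ^ 6 / x) atTop (𝓝 0) :=
    (Real.isLittleO_pow_log_id_atTop (n := 6)).tendsto_div_nhds_zero
  have h2 := h1.comp (tendsto_natCast_atTop_atTop (R := ℝ))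
  have h3 := h2.const_mul A
  rw [mul_zero] at h3
  have h4 := h3.eventually (ge_mem_nhds (show (0 : ℝ) < 1 by norm_num))
  obtain ⟨m0, hm0⟩ := (h4.and (eventually_ge_atTop 3)).exists_forall_of_atTop
  refine ⟨max m0 3, le_max_right _ _, ?_⟩
  intro m hm
  obtain ⟨h5, h6⟩ := hm0 m ((le_max_left _ _).trans hm)
  have hm0 : (0 : ℝ) < m := by exact_mod_cast (by omega : 0 < m)
  simp only [Function.comp] at h5
  rw [← mul_div_assoc, div_le_one hm0] at h5
  exact h5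

theorem pieces : ∃ A K : ℝ, 0 < A ∧ 0 < K ∧ ∃ m0 : ℕ, 3 ≤ m0 ∧ ∀ m : ℕ, m0 ≤ m →
    ∃ L : ℕ, 1 ≤ L ∧ (L : ℝ) ≤ A * (Real.log m ^ 6 / mass (1 / m)) ∧ L ≤ m ^ 2 ∧
      HP L m (1 / H981.mu) (Real.exp (-(K * Real.log m ^ 6))) := by
  obtain ⟨K1, hK1, h1⟩ := lower
  obtain ⟨K2, hK2, h2⟩ := short
  obtain ⟨B, hB⟩ : ∃ B, B = 2 * (64 * K1 + K2 + 3) := ⟨_, rfl⟩
  have hB0 : 0 < B := by rw [hB]; positivity
  obtain ⟨C, hC⟩ : ∃ C, C = mass 1 := ⟨_, rfl⟩
  have hC0 : 0 < C := by rw [hC]; exact mass_pos one_pos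
  obtain ⟨m0, hm0, hm1⟩ := ev_log6 (B + 3 * C)
  refine ⟨B + 3 * C, 64 * K1 + 8, by positivity, by positivity, m0, hm0, ?_⟩
  intro m hm
  have hm3 : 3 ≤ m := hm0.trans hm
  have hmr : (3 : ℝ) ≤ m := by exact_mod_cast hm3
  have hmp : (0 : ℝ) < m := by linarith
  obtain ⟨w, hw⟩ : ∃ w, w = Real.log (m : ℝ) := ⟨_, rfl⟩
  have hw1 : 1 ≤ w := by
    rw [hw, Real.le_log_iff_exp_le hmp]
    have := Real.exp_one_lt_d9
    linarith
  have hw6 : 1 ≤ w ^ 6 := one_le_pow₀ hw1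
  have hw61 : w ≤ w ^ 6 := le_self_pow₀ hw1 (by norm_num)
  have hw62 : w ^ 2 ≤ w ^ 6 := pow_le_pow_right₀ hw1 (by norm_num)
  have hmass : 0 < mass (1 / m) := mass_pos (by positivity)
  have hmassC : mass (1 / m) ≤ C := by
    rw [hC]
    apply mass_mono (by positivity)
    rw [div_le_one hmp]
    linarith
  have hmassm : 1 / (m : ℝ) ≤ mass (1 / m) := self_le_mass (by positivity)
  have hlm := hm1 m hm
  obtain ⟨L, hL⟩ : ∃ L, L = ⌈B * w ^ 6 / mass (1 / m)⌉₊ + 2 := ⟨_, rfl⟩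
  have hL2 : 2 ≤ L := by rw [hL]; omega
  have hLlow : B * w ^ 6 / mass (1 / m) ≤ L := by
    rw [hL]
    push_cast
    have := Nat.le_ceil (B * w ^ 6 / mass (1 / m))
    linarith
  have hLup : (L : ℝ) ≤ (B + 3 * C) * (w ^ 6 / mass (1 / m)) := by
    have h3 := Nat.ceil_lt_add_one (show 0 ≤ B * w ^ 6 / mass (1 / m) by positivity)
    have h4 : (3 : ℝ) ≤ 3 * C * (w ^ 6 / mass (1 / m)) := by
      rw [mul_div_assoc', le_div_iff₀ hmass]
      nlinarith [mul_le_mul_of_nonneg_left hw6 hC0.le]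
    have h5 : (L : ℝ) = ⌈B * w ^ 6 / mass (1 / m)⌉₊ + 2 := by rw [hL]; push_cast; ring
    rw [h5, add_mul, ← mul_div_assoc]
    linarith
  have hLm : (L : ℝ) ≤ (m : ℝ) ^ 2 := by
    refine hLup.trans ?_
    rw [← hw] at hlm
    have h3 : w ^ 6 / mass (1 / m) ≤ w ^ 6 * m := by
      rw [div_le_iff₀ hmass]
      have h4 : 1 ≤ m * mass (1 / m) := by
        have := mul_le_mul_of_nonneg_left hmassm hmp.le
        rwa [mul_one_div, div_self hmp.ne'] at this
      nlinarith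
    calc (B + 3 * C) * (w ^ 6 / mass (1 / m)) ≤ (B + 3 * C) * (w ^ 6 * m) :=
          mul_le_mul_of_nonneg_left h3 (by positivity)
      _ = ((B + 3 * C) * w ^ 6) * m := by ring
      _ ≤ m * m := mul_le_mul_of_nonneg_right hlm hmp.le
      _ = _ := by ring
  have hLp : (0 : ℝ) < L := by exact_mod_cast (by omega : 0 < L)
  refine ⟨L, by omega, by rw [← hw]; exact hLup, by exact_mod_cast hLm, ?_⟩
  intro d e hd he hde
  rw [← hw]
  have hlogL : Real.log L ^ 6 ≤ 64 * w ^ 6 := by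
    have h3 : Real.log L ≤ 2 * w := by
      have := Real.log_le_log hLp hLm
      rw [Real.log_pow] at this
      rw [hw]
      exact_mod_cast this
    have h4 := pow_le_pow_left₀ (Real.log_natCast_nonneg L) h3 6
    calc Real.log L ^ 6 ≤ (2 * w) ^ 6 := h4
      _ = _ := by ring
  have htot : Real.exp (-(64 * K1 * w ^ 6)) ≤ ∑ j ∈ Finset.range ((2 * L + 1) ^ 2),
      (nJ (Bx L 0) (side L 0 d) (side L 0 e) j : ℝ) * (1 / H981.mu) ^ j := by
    refine le_trans (Real.exp_le_exp.2 ?_) (h1 L hL2 d e hd he)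
    nlinarith [mul_le_mul_of_nonneg_left hlogL hK1]
  have hshort := h2 m (by omega) L hL2 d e hd he hde
  have he1 : Real.exp (-1) < 1 / 2 := by
    rw [Real.exp_neg, inv_lt_comm₀ (Real.exp_pos _) (by norm_num)]
    have := Real.exp_one_gt_d9
    linarith
  have hshort2 : m * Real.exp (-(mass (1 / m) * L / 2) + 1 + K2 * Real.log m ^ 2) ≤
      Real.exp (-(64 * K1 * w ^ 6)) * Real.exp (-1) := by
    rw [← hw, ← Real.exp_add]
    nth_rewrite 1 [← Real.exp_log hmp]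
    rw [← Real.exp_add, ← hw]
    apply Real.exp_le_exp.2
    have h3 : B * w ^ 6 ≤ mass (1 / m) * L := by
      rw [div_le_iff₀ hmass] at hLlow
      linarith
    rw [hB] at h3
    nlinarith [mul_le_mul_of_nonneg_left hw62 hK2]
  by_contra hcon
  push Not at hcon
  have hmu := H981.mu_pos
  have hlong : ∑ j ∈ Finset.range ((2 * L + 1) ^ 2) with ¬ j < m,
      (nJ (Bx L 0) (side L 0 d) (side L 0 e) j : ℝ) * (1 / H981.mu) ^ j ≤
      ((2 * L + 1) ^ 2 : ℕ) * Real.exp (-((64 * K1 + 8) * w ^ 6)) := by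
    calc _ ≤ ∑ j ∈ Finset.range ((2 * L + 1) ^ 2) with ¬ j < m,
          Real.exp (-((64 * K1 + 8) * w ^ 6)) := by
          apply Finset.sum_le_sum
          intro j hj
          rw [Finset.mem_filter, Finset.mem_range, not_lt] at hj
          exact (hcon j hj.2 hj.1).le
      _ = ((Finset.range ((2 * L + 1) ^ 2)).filter (fun j => ¬ j < m)).card *
          Real.exp (-((64 * K1 + 8) * w ^ 6)) := by
          rw [Finset.sum_const, nsmul_eq_mul]
      _ ≤ _ := by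
          apply mul_le_mul_of_nonneg_right _ (Real.exp_pos _).le
          have := Finset.card_filter_le (Finset.range ((2 * L + 1) ^ 2)) (fun j => ¬ j < m)
          rw [Finset.card_range] at this
          exact_mod_cast this
  have hsh : ∑ j ∈ Finset.range ((2 * L + 1) ^ 2) with j < m,
      (nJ (Bx L 0) (side L 0 d) (side L 0 e) j : ℝ) * (1 / H981.mu) ^ j ≤
      ∑ j ∈ Finset.range m,
      (nJ (Bx L 0) (side L 0 d) (side L 0 e) j : ℝ) * (1 / H981.mu) ^ j := by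
    apply Finset.sum_le_sum_of_subset_of_nonneg
    · intro j hj
      rw [Finset.mem_filter] at hj
      exact Finset.mem_range.2 hj.2
    · intro j _ _
      positivity
  rw [← Finset.sum_filter_add_sum_filter_not (Finset.range ((2 * L + 1) ^ 2)) (fun j => j < m)]
    at htot
  have hN : (((2 * L + 1) ^ 2 : ℕ) : ℝ) ≤ Real.exp (7 * w ^ 6) := by
    have h3 : (((2 * L + 1) ^ 2 : ℕ) : ℝ) ≤ 9 * (m : ℝ) ^ 4 := by
      push_cast
      have hL1 : (1 : ℝ) ≤ L := by exact_mod_cast (by omega : 1 ≤ L)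
      have h4 : (2 * (L : ℝ) + 1) ^ 2 ≤ (3 * L) ^ 2 := by
        apply pow_le_pow_left₀ (by positivity)
        linarith
      have h5 : (L : ℝ) ^ 2 ≤ ((m : ℝ) ^ 2) ^ 2 := pow_le_pow_left₀ hLp.le hLm 2
      calc (2 * (L : ℝ) + 1) ^ 2 ≤ (3 * L) ^ 2 := h4
        _ = 9 * (L : ℝ) ^ 2 := by ring
        _ ≤ 9 * ((m : ℝ) ^ 2) ^ 2 := by linarith
        _ = _ := by ring
    have h6 : (9 : ℝ) ≤ Real.exp 3 := by
      have h7 := Real.exp_one_gt_d9
      have h8 : Real.exp 3 = Real.exp 1 ^ 3 := by rw [← Real.exp_nat_mul]; norm_num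
      rw [h8]
      have h9 : (2.7182818283 : ℝ) ^ 3 ≤ Real.exp 1 ^ 3 := pow_le_pow_left₀ (by norm_num) h7.le 3
      refine le_trans ?_ h9
      norm_num
    have h10 : (m : ℝ) ^ 4 = Real.exp (4 * w) := by
      rw [hw, ← Real.exp_log (pow_pos hmp 4), Real.log_pow]
      norm_num
    refine h3.trans ?_
    rw [h10]
    calc 9 * Real.exp (4 * w) ≤ Real.exp 3 * Real.exp (4 * w) :=
          mul_le_mul_of_nonneg_right h6 (Real.exp_pos _).le
      _ = Real.exp (3 + 4 * w) := by rw [Real.exp_add]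
      _ ≤ _ := Real.exp_le_exp.2 (by linarith)
  have hfin : (((2 * L + 1) ^ 2 : ℕ) : ℝ) * Real.exp (-((64 * K1 + 8) * w ^ 6)) ≤
      Real.exp (-(64 * K1 * w ^ 6)) * Real.exp (-1) := by
    calc (((2 * L + 1) ^ 2 : ℕ) : ℝ) * Real.exp (-((64 * K1 + 8) * w ^ 6))
        ≤ Real.exp (7 * w ^ 6) * Real.exp (-((64 * K1 + 8) * w ^ 6)) :=
          mul_le_mul_of_nonneg_right hN (Real.exp_pos _).le
      _ = Real.exp (7 * w ^ 6 + -((64 * K1 + 8) * w ^ 6)) := by rw [Real.exp_add]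
      _ ≤ Real.exp (-(64 * K1 * w ^ 6) + -1) := Real.exp_le_exp.2 (by nlinarith)
      _ = _ := by rw [Real.exp_add]
  have hpos := Real.exp_pos (-(64 * K1 * w ^ 6))
  nlinarith

end Pool.Agent.X144.Cp
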