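import Pool.Agent.X144.Cp.Conf

/-!
# Compressed walks: exponents
-/

set_option autoImplicit false

namespace Pool.Agent.X144.Cp

open Filter Topology
open Pool.Agent.Y981.L2 (far mass mass_pos mass_mono self_le_mass MassLow)

theorem massLow_one : MassLow 1 := by
  intro ε hε
  have h1 : ∀ᶠ e : ℝ in 𝓝[>] (0 : ℝ), e < 1 :=
    (eventually_nhdsWithin_of_eventually_nhds (gt_mem_nhds one_pos))
  filter_upwards [self_mem_nhdsWithin, h1] with e he he1
  have he' : 0 < e := he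
  have h2 : e ^ (1 + ε) ≤ e ^ (1 : ℝ) :=
    Real.rpow_le_rpow_of_exponent_ge he' he1.le (by linarith)
  rw [Real.rpow_one] at h2
  exact h2.trans (self_le_mass he'.le)

theorem ev_log6r (C : ℝ) {η : ℝ} (hη : 0 < η) :
    ∀ᶠ n : ℕ in atTop, C * Real.log n ^ 6 ≤ (n : ℝ) ^ η := by
  have h1 : Tendsto (fun x : ℝ => Real.log x ^ (6 : ℝ) / x ^ η) atTop (𝓝 0) :=
    (isLittleO_log_rpow_rpow_atTop 6 hη).tendsto_div_nhds_zero
  have h2 := h1.comp (tendsto_natCast_atTop_atTop (R := ℝ))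
  have h3 := h2.const_mul C
  rw [mul_zero] at h3
  have h4 := h3.eventually (ge_mem_nhds (show (0 : ℝ) < 1 by norm_num))
  filter_upwards [h4, eventually_ge_atTop 1] with n h5 h6
  have hn0 : (0 : ℝ) < (n : ℝ) ^ η := Real.rpow_pos_of_pos (by exact_mod_cast (by omega : 0 < n)) _
  simp only [Function.comp] at h5
  rw [← mul_div_assoc, div_le_one hn0] at h5
  have h7 : Real.log (n : ℝ) ^ (6 : ℝ) = Real.log (n : ℝ) ^ 6 := by
    rw [← Real.rpow_natCast]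
    norm_num
  rwa [h7] at h5

theorem choose_N {θ : ℝ} (h1 : 1 / 2 < θ) (hM : MassLow θ) {a : ℝ} (ha : 1 / 2 < a) (haθ : a < θ)
    {ε : ℝ} (hε : 0 < ε) (A K : ℝ) (hA : 0 < A) (hK : 0 < K) (N0 : ℕ) :
    ∀ᶠ n : ℕ in atTop, ∃ N : ℕ, N0 ≤ N ∧ N ≤ n ∧
      A * (Real.sqrt (n / N) * (Real.log N ^ 6 / mass (1 / N))) ≤ (n : ℝ) ^ a ∧
      K * (n / N * Real.log N ^ 6) ≤ (n : ℝ) ^ ((θ - a) / (θ - 1 / 2) + ε) := by
  have hs : 0 < θ - 1 / 2 := by linarith
  obtain ⟨β0, hβ0⟩ : ∃ β0, β0 = (a - 1 / 2) / (θ - 1 / 2) := ⟨_, rfl⟩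
  have hβ0p : 0 < β0 := by rw [hβ0]; apply div_pos _ hs; linarith
  have hβ01 : β0 < 1 := by rw [hβ0, div_lt_one hs]; linarith
  obtain ⟨δ, hδ⟩ : ∃ δ, δ = min (ε / 2) (β0 / 2) := ⟨_, rfl⟩
  have hδ0 : 0 < δ := by rw [hδ]; exact lt_min (by linarith) (by linarith)
  have hδ1 : δ ≤ ε / 2 := by rw [hδ]; exact min_le_left _ _
  have hδ2 : δ ≤ β0 / 2 := by rw [hδ]; exact min_le_right _ _
  obtain ⟨β, hβ⟩ : ∃ β, β = β0 - δ := ⟨_, rfl⟩
  have hβp : 0 < β := by rw [hβ]; linarith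
  have hβ1 : β < 1 := by rw [hβ]; linarith
  obtain ⟨ε', hε'⟩ : ∃ ε', ε' = δ * (θ - 1 / 2) / 4 := ⟨_, rfl⟩
  have hε'0 : 0 < ε' := by rw [hε']; positivity
  have hβs : β0 * (θ - 1 / 2) = a - 1 / 2 := by rw [hβ0, div_mul_cancel₀ _ hs.ne']
  have h1β : (θ - a) / (θ - 1 / 2) = 1 - β0 := by
    rw [hβ0, eq_sub_iff_add_eq, ← add_div]
    have : θ - a + (a - 1 / 2) = θ - 1 / 2 := by ring
    rw [this, div_self hs.ne']
  have htend : Tendsto (fun n : ℕ => ⌊(n : ℝ) ^ β⌋₊) atTop atTop :=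
    tendsto_nat_floor_atTop.comp ((tendsto_rpow_atTop hβp).comp tendsto_natCast_atTop_atTop)
  have htend' : Tendsto (fun n : ℕ => 1 / ((⌊(n : ℝ) ^ β⌋₊ : ℕ) : ℝ)) atTop (𝓝[>] 0) := by
    rw [tendsto_nhdsWithin_iff]
    constructor
    · have := (tendsto_one_div_atTop_nhds_zero_nat (𝕜 := ℝ)).comp htend
      exact this
    · filter_upwards [htend.eventually_ge_atTop 1] with n hn
      have : (0 : ℝ) < (⌊(n : ℝ) ^ β⌋₊ : ℕ) := by exact_mod_cast (by omega : 0 < ⌊(n : ℝ) ^ β⌋₊)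
      exact one_div_pos.2 this
  have e1 := htend'.eventually (hM ε' hε'0)
  have e2 := ev_log6r A (show 0 < 3 / 4 * (δ * (θ - 1 / 2)) by positivity)
  have e3 := ev_log6r (2 * K) (show 0 < ε / 2 by positivity)
  filter_upwards [e1, e2, e3, htend.eventually_ge_atTop (max N0 2), eventually_ge_atTop 2] with n
    f1 f2 f3 f4 f5
  obtain ⟨N, hN⟩ : ∃ N, N = ⌊(n : ℝ) ^ β⌋₊ := ⟨_, rfl⟩
  rw [← hN] at f1 f4
  have hnr : (2 : ℝ) ≤ n := by exact_mod_cast f5
  have hn0 : (0 : ℝ) < n := by linarith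
  have hn1 : (1 : ℝ) ≤ n := by linarith
  have hN2 : 2 ≤ N := (le_max_right _ _).trans f4
  have hNr : (2 : ℝ) ≤ N := by exact_mod_cast hN2
  have hN0 : (0 : ℝ) < N := by linarith
  have hNβ : (N : ℝ) ≤ (n : ℝ) ^ β := by
    rw [hN]
    exact Nat.floor_le (by positivity)
  have hβn : (n : ℝ) ^ β ≤ 2 * N := by
    have := Nat.lt_floor_add_one ((n : ℝ) ^ β)
    rw [← hN] at this
    linarith
  have hNn : (N : ℝ) ≤ n := by
    refine hNβ.trans ?_
    have := Real.rpow_le_rpow_of_exponent_le hn1 hβ1.le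
    rwa [Real.rpow_one] at this
  have hlog : Real.log N ^ 6 ≤ Real.log n ^ 6 :=
    pow_le_pow_left₀ (Real.log_natCast_nonneg N) (Real.log_le_log hN0 hNn) 6
  have hlog0 : 0 ≤ Real.log (n : ℝ) ^ 6 := pow_nonneg (Real.log_natCast_nonneg n) 6
  have hlogN0 : 0 ≤ Real.log (N : ℝ) ^ 6 := pow_nonneg (Real.log_natCast_nonneg N) 6
  have hmass : 0 < mass (1 / N) := mass_pos (by positivity)
  refine ⟨N, (le_max_left _ _).trans f4, by exact_mod_cast hNn, ?_, ?_⟩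
  · have g1 : 1 / mass (1 / N) ≤ (N : ℝ) ^ (θ + ε') := by
      rw [div_le_iff₀ hmass]
      rw [one_div, Real.inv_rpow hN0.le] at f1
      have hNp : 0 < (N : ℝ) ^ (θ + ε') := Real.rpow_pos_of_pos hN0 _
      have := mul_le_mul_of_nonneg_left f1 hNp.le
      rw [mul_inv_cancel₀ hNp.ne'] at this
      rw [one_div]
      exact this
    have g2 : Real.sqrt (n / N) * (N : ℝ) ^ (θ + ε') =
        (n : ℝ) ^ (1 / 2 : ℝ) * (N : ℝ) ^ (θ - 1 / 2 + ε') := by
      rw [Real.sqrt_div' _ hN0.le, Real.sqrt_eq_rpow, Real.sqrt_eq_rpow, div_mul_eq_mul_div,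
        mul_div_assoc, ← Real.rpow_sub hN0]
      congr 2
      ring
    have g3 : (N : ℝ) ^ (θ - 1 / 2 + ε') ≤ (n : ℝ) ^ (β * (θ - 1 / 2 + ε')) := by
      rw [Real.rpow_mul hn0.le]
      exact Real.rpow_le_rpow hN0.le hNβ (by positivity)
    calc A * (Real.sqrt (n / N) * (Real.log N ^ 6 / mass (1 / N)))
        = A * Real.log N ^ 6 * (Real.sqrt (n / N) * (1 / mass (1 / N))) := by ring
      _ ≤ A * Real.log n ^ 6 * (Real.sqrt (n / N) * (N : ℝ) ^ (θ + ε')) := by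
          apply mul_le_mul (mul_le_mul_of_nonneg_left hlog hA.le) _ (by positivity)
            (by positivity)
          exact mul_le_mul_of_nonneg_left g1 (Real.sqrt_nonneg _)
      _ ≤ (n : ℝ) ^ (3 / 4 * (δ * (θ - 1 / 2))) *
          ((n : ℝ) ^ (1 / 2 : ℝ) * (n : ℝ) ^ (β * (θ - 1 / 2 + ε'))) := by
          rw [g2]
          apply mul_le_mul f2 _ (by positivity) (by positivity)
          exact mul_le_mul_of_nonneg_left g3 (by positivity)
      _ = (n : ℝ) ^ (3 / 4 * (δ * (θ - 1 / 2)) + (1 / 2 + β * (θ - 1 / 2 + ε'))) := by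
          rw [← Real.rpow_add hn0, ← Real.rpow_add hn0]
      _ ≤ (n : ℝ) ^ a := by
          apply Real.rpow_le_rpow_of_exponent_le hn1
          have hb : β * ε' ≤ ε' := by nlinarith
          have hb2 : β * (θ - 1 / 2) = a - 1 / 2 - δ * (θ - 1 / 2) := by
            rw [hβ, sub_mul, hβs]
          have hb3 : ε' = δ * (θ - 1 / 2) / 4 := hε'
          have : β * (θ - 1 / 2 + ε') = β * (θ - 1 / 2) + β * ε' := by ring
          linarith
  · have g1 : (n : ℝ) / N ≤ 2 * (n : ℝ) ^ (1 - β) := by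
      rw [div_le_iff₀ hN0, Real.rpow_sub hn0, Real.rpow_one]
      have hp : 0 < (n : ℝ) ^ β := Real.rpow_pos_of_pos hn0 _
      rw [mul_div_assoc', div_mul_eq_mul_div, le_div_iff₀ hp]
      nlinarith
    calc K * (n / N * Real.log N ^ 6) ≤ K * (2 * (n : ℝ) ^ (1 - β) * Real.log n ^ 6) := by
          apply mul_le_mul_of_nonneg_left _ hK.le
          exact mul_le_mul g1 hlog hlogN0 (by positivity)
      _ = (2 * K * Real.log n ^ 6) * (n : ℝ) ^ (1 - β) := by ring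
      _ ≤ (n : ℝ) ^ (ε / 2) * (n : ℝ) ^ (1 - β) :=
          mul_le_mul_of_nonneg_right f3 (by positivity)
      _ = (n : ℝ) ^ (ε / 2 + (1 - β)) := by rw [← Real.rpow_add hn0]
      _ ≤ _ := by
          apply Real.rpow_le_rpow_of_exponent_le hn1
          rw [h1β, hβ]
          linarith

end Pool.Agent.X144.Cp
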