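import Pool.Agent.X144.Cp.Mu

/-!
# From lists of sites to walks, and cutting of paths
-/

set_option autoImplicit false

namespace Pool.Agent.X144.Cp

open scoped ENNReal
open Pool.Agent.H122R3.SX (Adj)
open Pool.Agent.H122R3.HX (ZL TL)

/-- the part of a path from the time `s` on -/
def fn (l : List (ℤ × ℤ)) (s n : ℕ) : Fin (n + 1) → ℤ × ℤ :=
  fun k => l.getD (s + k) (0, 0) - l.getD s (0, 0)

theorem fn_saw {D : Set (ℤ × ℤ)} {a b : ℤ × ℤ} {j : ℕ} {l : List (ℤ × ℤ)} (h : l ∈ TJ D a b j)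
    {s n : ℕ} (hs : s + n ≤ j) : H981.IsSAW n (fn l s n) := by
  obtain ⟨⟨h1, h2, h3, h4, h5⟩, h6⟩ := h
  refine ⟨?_, ?_, ?_⟩
  · unfold fn
    simp
    rfl
  · intro i
    unfold fn
    have hi := i.2
    simp only [Fin.val_castSucc, Fin.val_succ, Prod.fst_sub, Prod.snd_sub, sub_sub_sub_cancel_right]
    rw [List.getD_eq_getElem _ _ (by omega : s + ((i : ℕ) + 1) < l.length),
      List.getD_eq_getElem _ _ (by omega : s + (i : ℕ) < l.length)]
    rw [List.isChain_iff_getElem] at h4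
    have h7 := h4 (s + i) (by omega)
    unfold Adj at h7
    rw [abs_sub_comm, abs_sub_comm (l[s + ((i : ℕ) + 1)]).2]
    exact h7
  · intro i k hik
    have hi := i.2
    have hk := k.2
    unfold fn at hik
    have hik' := sub_left_inj.1 hik
    rw [List.getD_eq_getElem _ _ (by omega : s + (i : ℕ) < l.length),
      List.getD_eq_getElem _ _ (by omega : s + (k : ℕ) < l.length)] at hik'
    have := (h3.getElem_inj_iff).1 hik'
    exact Fin.ext (by omega)

theorem getD_zero {D : Set (ℤ × ℤ)} {a b : ℤ × ℤ} {j : ℕ} {l : List (ℤ × ℤ)} (h : l ∈ TJ D a b j) :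
    l.getD 0 (0, 0) = a := by
  obtain ⟨⟨h1, h2, h3, h4, h5⟩, h6⟩ := h
  rw [List.getD_eq_getElem?_getD, ← List.head?_eq_getElem?, h1]
  rfl

theorem getD_last {D : Set (ℤ × ℤ)} {a b : ℤ × ℤ} {j : ℕ} {l : List (ℤ × ℤ)} (h : l ∈ TJ D a b j) :
    l.getD j (0, 0) = b := by
  obtain ⟨⟨h1, h2, h3, h4, h5⟩, h6⟩ := h
  rw [List.getLast?_eq_getElem?, h6] at h2
  rw [List.getD_eq_getElem?_getD]
  simp only [Nat.add_sub_cancel] at h2
  rw [h2]
  rfl

theorem getD_mem {D : Set (ℤ × ℤ)} {a b : ℤ × ℤ} {j : ℕ} {l : List (ℤ × ℤ)} (h : l ∈ TJ D a b j)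
    {k : ℕ} (hk : k ≤ j) : l.getD k (0, 0) ∈ D := by
  obtain ⟨⟨h1, h2, h3, h4, h5⟩, h6⟩ := h
  rw [List.getD_eq_getElem _ _ (by omega : k < l.length)]
  exact h5 _ (List.getElem_mem _)

theorem saw_finite (n : ℕ) : {ω : Fin (n + 1) → ℤ × ℤ | H981.IsSAW n ω}.Finite := by
  have : {ω : Fin (n + 1) → ℤ × ℤ | H981.IsSAW n ω} = H122R3.SX.walks n := by
    ext ω
    exact (mem_walks n ω).symm
  rw [this]
  exact H122R3.SX.walks_finite n

/-- walks with given end point -/
theorem nJ_le_a (D : Set (ℤ × ℤ)) (a b : ℤ × ℤ) (j : ℕ) :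
    nJ D a b j ≤ TH795.EP.a j (b - a).1 (b - a).2 := by
  have h := TH795.EP2.card_walks_to j (b - a)
  have h' : Nat.card {ω : Fin (j + 1) → ℤ × ℤ // H981.IsSAW j ω ∧ ω (Fin.last j) = b - a} =
      {ω : Fin (j + 1) → ℤ × ℤ | H981.IsSAW j ω ∧ ω (Fin.last j) = b - a}.ncard :=
    Nat.card_coe_set_eq _
  rw [← h, h']
  unfold nJ
  apply Set.ncard_le_ncard_of_injOn (fun l => fn l 0 j) _ _
    ((saw_finite j).subset (fun ω hω => hω.1))
  · intro l hl
    refine ⟨fn_saw hl (by omega), ?_⟩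
    unfold fn
    rw [getD_zero hl, Fin.val_last, zero_add, getD_last hl]
  · intro l hl l' hl' h
    have h6 := hl.2
    have h6' := hl'.2
    apply List.ext_getElem (by omega)
    intro i hi hi'
    have h7 := congrFun h (⟨i, by omega⟩ : Fin (j + 1))
    unfold fn at h7
    simp only [zero_add] at h7
    rw [getD_zero hl, getD_zero hl'] at h7
    have h8 := sub_left_inj.1 h7
    rwa [List.getD_eq_getElem _ _ hi, List.getD_eq_getElem _ _ hi'] at h8

/-- the number of walks with `n` steps which, started in `a`, stay in `D` -/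
noncomputable def conf (D : Set (ℤ × ℤ)) (a : ℤ × ℤ) (n : ℕ) : ℕ :=
  Nat.card {ω : Fin (n + 1) → ℤ × ℤ // H981.IsSAW n ω ∧ ∀ i, ω i + a ∈ D}

/-- **Cutting.** -/
theorem cut (D : Set (ℤ × ℤ)) (a b : ℤ × ℤ) {j n : ℕ} (hn : n ≤ j) :
    nJ D a b j ≤ conf D a n * TH795.EP.c (j - n) := by
  have hc := TH795.EP2.card_walks (j - n)
  have h' : Nat.card {ω : Fin (n + 1) → ℤ × ℤ // H981.IsSAW n ω ∧ ∀ i, ω i + a ∈ D} =
      {ω : Fin (n + 1) → ℤ × ℤ | H981.IsSAW n ω ∧ ∀ i, ω i + a ∈ D}.ncard :=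
    Nat.card_coe_set_eq _
  have h'' : Nat.card {ω : Fin (j - n + 1) → ℤ × ℤ // H981.IsSAW (j - n) ω} =
      {ω : Fin (j - n + 1) → ℤ × ℤ | H981.IsSAW (j - n) ω}.ncard :=
    Nat.card_coe_set_eq _
  rw [← hc]
  unfold conf
  rw [h', h'', ← Set.ncard_prod]
  have f1 : {ω : Fin (n + 1) → ℤ × ℤ | H981.IsSAW n ω ∧ ∀ i, ω i + a ∈ D}.Finite :=
    (saw_finite n).subset (fun ω hω => hω.1)
  have f2 : {ω : Fin (j - n + 1) → ℤ × ℤ | H981.IsSAW (j - n) ω}.Finite := saw_finite (j - n)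
  unfold nJ
  apply Set.ncard_le_ncard_of_injOn (fun l => (fn l 0 n, fn l n (j - n))) _ _ (f1.prod f2)
  · intro l hl
    refine ⟨⟨fn_saw hl (by omega), ?_⟩, fn_saw hl (by omega)⟩
    intro i
    have hi := i.2
    change l.getD (0 + i) (0, 0) - l.getD 0 (0, 0) + a ∈ D
    rw [getD_zero hl, sub_add_cancel]
    exact getD_mem hl (by omega)
  · intro l hl l' hl' h
    have h6 := hl.2
    have h6' := hl'.2
    simp only [Prod.mk.injEq] at h
    obtain ⟨h1, h2⟩ := h
    have key : ∀ i ≤ n, l.getD i (0, 0) = l'.getD i (0, 0) := by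
      intro i hi
      have h7 := congrFun h1 (⟨i, by omega⟩ : Fin (n + 1))
      unfold fn at h7
      simp only [zero_add] at h7
      rw [getD_zero hl, getD_zero hl'] at h7
      exact sub_left_inj.1 h7
    have key2 : ∀ i, n ≤ i → i ≤ j → l.getD i (0, 0) = l'.getD i (0, 0) := by
      intro i hi hij
      have h7 := congrFun h2 (⟨i - n, by omega⟩ : Fin (j - n + 1))
      unfold fn at h7
      simp only at h7
      rw [key n le_rfl, show n + (i - n) = i by omega] at h7
      exact sub_left_inj.1 h7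
    apply List.ext_getElem (by omega)
    intro i hi hi'
    have h8 : l.getD i (0, 0) = l'.getD i (0, 0) := by
      rcases le_total i n with h | h
      · exact key i h
      · exact key2 i h (by omega)
    rwa [List.getD_eq_getElem _ _ hi, List.getD_eq_getElem _ _ hi'] at h8

/-- the generating function as a finite sum -/
theorem ZL_le_sum (X : ℝ≥0∞) {D : Set (ℤ × ℤ)} (a b : ℤ × ℤ) {N : ℕ}
    (hN : ∀ l : List (ℤ × ℤ), l.Nodup → (∀ p ∈ l, p ∈ D) → l.length ≤ N) :
    ZL Adj X D a b ≤ ∑ j ∈ Finset.range N, (nJ D a b j : ℝ≥0∞) * X ^ j := by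
  classical
  have h0 : ∀ r ∉ (Finset.range N).biUnion (fun j => (TJ_finite D a b j).toFinset),
      (TL Adj D a b).indicator (fun l => X ^ (l.length - 1)) r = 0 := by
    intro r hr
    rw [Set.indicator_of_notMem]
    intro hr'
    apply hr
    rw [Finset.mem_biUnion]
    have h1 := hN r hr'.2.2.1 hr'.2.2.2.2
    have h2 : r ≠ [] := by
      rintro rfl
      have := hr'.1
      simp at this
    have h3 := List.length_pos_of_ne_nil h2
    refine ⟨r.length - 1, Finset.mem_range.2 (by omega), ?_⟩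
    rw [Set.Finite.mem_toFinset]
    exact ⟨hr', by omega⟩
  unfold ZL
  rw [tsum_subtype (TL Adj D a b) (fun l => X ^ (l.length - 1)), tsum_eq_sum h0,
    Finset.sum_biUnion]
  · apply Finset.sum_le_sum
    intro j _
    calc ∑ r ∈ (TJ_finite D a b j).toFinset,
          (TL Adj D a b).indicator (fun l => X ^ (l.length - 1)) r
        ≤ ∑ r ∈ (TJ_finite D a b j).toFinset, X ^ j := by
          apply Finset.sum_le_sum
          intro r hr
          rw [Set.Finite.mem_toFinset] at hr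
          rw [Set.indicator_of_mem hr.1, hr.2]
          exact le_of_eq (by rw [Nat.add_sub_cancel])
      _ = (nJ D a b j : ℝ≥0∞) * X ^ j := by
          rw [Finset.sum_const, nsmul_eq_mul]
          unfold nJ
          rw [Set.ncard_eq_toFinset_card _ (TJ_finite D a b j)]
  · intro j hj j' hj' hne
    rw [Function.onFun, Finset.disjoint_left]
    intro r hr hr'
    rw [Set.Finite.mem_toFinset] at hr hr'
    have e1 := hr.2
    have e2 := hr'.2
    omega

end Pool.Agent.X144.Cp
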