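import Pool.Agent.H122R3.SX.Wed

/-!
# Concatenation of self-avoiding paths in disjoint domains
-/

set_option autoImplicit false

namespace Pool.Agent.X144.Cp

open Pool.Agent.H122R3.HX (ZL TL)
open Pool.Agent.H122R3.SX (Adj c)
open Pool.Agent.H122R3.SY (Sn Sn_card)

/-- the self-avoiding paths with `j` steps from `a` to `b` in `D` -/
def TJ (D : Set (ℤ × ℤ)) (a b : ℤ × ℤ) (j : ℕ) : Set (List (ℤ × ℤ)) :=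
  {l | l ∈ TL Adj D a b ∧ l.length = j + 1}

/-- their number -/
noncomputable def nJ (D : Set (ℤ × ℤ)) (a b : ℤ × ℤ) (j : ℕ) : ℕ := (TJ D a b j).ncard

theorem TJ_subset (D : Set (ℤ × ℤ)) (a b : ℤ × ℤ) (j : ℕ) : TJ D a b j ⊆ Sn a j := by
  rintro l ⟨⟨h1, h2, h3, h4, h5⟩, h6⟩
  exact ⟨h1, h3, h4, h6⟩

theorem TJ_finite (D : Set (ℤ × ℤ)) (a b : ℤ × ℤ) (j : ℕ) : (TJ D a b j).Finite :=
  (Sn_card a j).1.subset (TJ_subset D a b j)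

theorem nJ_mono {D D' : Set (ℤ × ℤ)} (h : D ⊆ D') (a b : ℤ × ℤ) (j : ℕ) :
    nJ D a b j ≤ nJ D' a b j := by
  apply Set.ncard_le_ncard _ (TJ_finite _ _ _ _)
  rintro l ⟨⟨h1, h2, h3, h4, h5⟩, h6⟩
  exact ⟨⟨h1, h2, h3, h4, fun p hp => h (h5 p hp)⟩, h6⟩

theorem cat_mem {D₁ D₂ : Set (ℤ × ℤ)} {a₁ b₁ a₂ b₂ : ℤ × ℤ} {j₁ j₂ : ℕ} (hD : Disjoint D₁ D₂)
    (hab : Adj b₁ a₂) {l₁ l₂ : List (ℤ × ℤ)} (h₁ : l₁ ∈ TJ D₁ a₁ b₁ j₁) (h₂ : l₂ ∈ TJ D₂ a₂ b₂ j₂) :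
    l₁ ++ l₂ ∈ TJ (D₁ ∪ D₂) a₁ b₂ (j₁ + j₂ + 1) := by
  obtain ⟨⟨h1, h2, h3, h4, h5⟩, h6⟩ := h₁
  obtain ⟨⟨k1, k2, k3, k4, k5⟩, k6⟩ := h₂
  refine ⟨⟨?_, ?_, ?_, ?_, ?_⟩, ?_⟩
  · rw [List.head?_append, h1]
    rfl
  · rw [List.getLast?_append, k2]
    rfl
  · rw [List.nodup_append]
    refine ⟨h3, k3, ?_⟩
    rintro p hp q hq rfl
    exact Set.disjoint_left.1 hD (h5 p hp) (k5 p hq)
  · rw [List.isChain_append]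
    refine ⟨h4, k4, ?_⟩
    intro x hx y hy
    rw [h2, Option.mem_some_iff] at hx
    rw [k1, Option.mem_some_iff] at hy
    rw [← hx, ← hy]
    exact hab
  · intro p hp
    rw [List.mem_append] at hp
    rcases hp with hp | hp
    · exact Or.inl (h5 p hp)
    · exact Or.inr (k5 p hp)
  · rw [List.length_append, h6, k6]
    ring

theorem cat {D₁ D₂ : Set (ℤ × ℤ)} {a₁ b₁ a₂ b₂ : ℤ × ℤ} {j₁ j₂ : ℕ} (hD : Disjoint D₁ D₂)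
    (hab : Adj b₁ a₂) :
    nJ D₁ a₁ b₁ j₁ * nJ D₂ a₂ b₂ j₂ ≤ nJ (D₁ ∪ D₂) a₁ b₂ (j₁ + j₂ + 1) := by
  unfold nJ
  rw [← Set.ncard_prod]
  apply Set.ncard_le_ncard_of_injOn (fun p : List (ℤ × ℤ) × List (ℤ × ℤ) => p.1 ++ p.2) _ _
    (TJ_finite _ _ _ _)
  · rintro ⟨l₁, l₂⟩ ⟨h₁, h₂⟩
    exact cat_mem hD hab h₁ h₂
  · rintro ⟨l₁, l₂⟩ ⟨h₁, h₂⟩ ⟨l₁', l₂'⟩ ⟨h₁', h₂'⟩ h
    simp only at h
    obtain ⟨e1, e2⟩ := List.append_inj h (by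
      have e1 : l₁.length = j₁ + 1 := h₁.2
      have e2 : l₁'.length = j₁ + 1 := h₁'.2
      omega)
    exact Prod.ext e1 e2

theorem map_le {φ : ℤ × ℤ → ℤ × ℤ} (hφ : Function.Injective φ)
    (hn : ∀ p q, Adj p q → Adj (φ p) (φ q)) {A D : Set (ℤ × ℤ)} (h : ∀ p ∈ A, φ p ∈ D)
    (a b : ℤ × ℤ) (j : ℕ) : nJ A a b j ≤ nJ D (φ a) (φ b) j := by
  unfold nJ
  apply Set.ncard_le_ncard_of_injOn (fun l : List (ℤ × ℤ) => l.map φ) _ _ (TJ_finite _ _ _ _)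
  · rintro l ⟨⟨h1, h2, h3, h4, h5⟩, h6⟩
    refine ⟨⟨by rw [List.head?_map, h1]; rfl, by rw [List.getLast?_map, h2]; rfl, h3.map hφ,
      List.isChain_map_of_isChain φ hn h4, ?_⟩, by rw [List.length_map, h6]⟩
    intro p hp
    rw [List.mem_map] at hp
    obtain ⟨q, hq, rfl⟩ := hp
    exact h q (h5 q hq)
  · intro l _ l' _ h
    exact List.map_injective_iff.2 hφ h

end Pool.Agent.X144.Cp
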