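import Pool.Agent.X144.Cp.Piece3

/-!
# Compressed walks
-/

set_option autoImplicit false

namespace Pool.Agent.X144.Cp

open Filter Topology
open Pool.Agent.Y981.L2 (far mass mass_pos mass_mono self_le_mass)

/-- a box -/
def Bo (L : ℕ) (S : ℤ) : Set (ℤ × ℤ) :=
  {p | (-(L : ℤ) ≤ p.1 ∧ p.1 ≤ S) ∧ (-(L : ℤ) ≤ p.2 ∧ p.2 ≤ S)}

/-- **Compressed walks.** -/
theorem confined : ∃ A K : ℝ, 0 < A ∧ 0 < K ∧ ∃ N0 : ℕ, 3 ≤ N0 ∧ ∀ N : ℕ, N0 ≤ N → ∀ n : ℕ, N ≤ n →
    ∃ (L M : ℕ) (a : ℤ × ℤ), (((2 * L + 1) * M + L : ℤ) : ℝ) ≤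
        A * (Real.sqrt (n / N) * (Real.log N ^ 6 / mass (1 / N))) ∧
      H981.mu ^ n * Real.exp (-(K * (n / N * Real.log N ^ 6))) ≤
        (conf (Bo L ((2 * L + 1) * M)) a n : ℝ) := by
  obtain ⟨A, K1, hA, hK1, N0, hN0, h1⟩ := pieces
  obtain ⟨K2, hK2, h2, -⟩ := TH795.EP2.exists_K
  have hmu1 : 1 ≤ H981.mu := by
    rw [← mu_eq]
    exact H122R3.SY.one_le_mu
  have hmu := H981.mu_pos
  have hlmu : 0 ≤ Real.log H981.mu := Real.log_nonneg hmu1
  refine ⟨8 * A, 4 * K1 + 4 * Real.log H981.mu + 972 * K2, by positivity, by positivity, N0, hN0, ?_⟩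
  intro N hN n hn
  obtain ⟨L, hL1, hLA, hLN, hHP⟩ := h1 N hN
  have hN3 : 3 ≤ N := hN0.trans hN
  have hNr : (3 : ℝ) ≤ N := by exact_mod_cast hN3
  have hNp : (0 : ℝ) < N := by linarith
  have hnN : (N : ℝ) ≤ n := by exact_mod_cast hn
  have hnp : (0 : ℝ) < n := by linarith
  obtain ⟨s, hs⟩ : ∃ s, s = Real.sqrt (n / N) := ⟨_, rfl⟩
  have hs2 : s ^ 2 = n / N := by rw [hs, Real.sq_sqrt (by positivity)]
  have hnN1 : 1 ≤ (n : ℝ) / N := by rwa [one_le_div hNp]
  have hs1 : 1 ≤ s := by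
    rw [hs, Real.one_le_sqrt]
    exact hnN1
  obtain ⟨M, hM⟩ : ∃ M, M = ⌈s⌉₊ := ⟨_, rfl⟩
  have hMs : s ≤ M := by rw [hM]; exact Nat.le_ceil s
  have hM1 : 1 ≤ M := by
    have : (1 : ℝ) ≤ M := hs1.trans hMs
    exact_mod_cast this
  have hM2 : (M : ℝ) ≤ 2 * s := by
    have := Nat.ceil_lt_add_one (show 0 ≤ s by linarith)
    rw [← hM] at this
    linarith
  have hMn : (M : ℝ) ^ 2 ≤ 4 * (n / N) := by
    have := pow_le_pow_left₀ (by positivity) hM2 2
    nlinarith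
  have hnM : n ≤ M ^ 2 * N := by
    have h3 := pow_le_pow_left₀ (by linarith) hMs 2
    rw [hs2, div_le_iff₀ hNp] at h3
    exact_mod_cast h3
  obtain ⟨w, hw⟩ : ∃ w, w = Real.log (N : ℝ) := ⟨_, rfl⟩
  have hw1 : 1 ≤ w := by
    rw [hw, Real.le_log_iff_exp_le hNp]
    have := Real.exp_one_lt_d9
    linarith
  have hw6 : 1 ≤ w ^ 6 := one_le_pow₀ hw1
  have hw62 : w ^ 2 ≤ w ^ 6 := pow_le_pow_right₀ hw1 (by norm_num)
  obtain ⟨x, hx⟩ : ∃ x, x = 1 / H981.mu := ⟨_, rfl⟩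
  have hx0 : 0 < x := by rw [hx]; positivity
  have hx1 : x ≤ 1 := by rw [hx, div_le_one hmu]; exact hmu1
  rw [← hw, ← hx] at hHP
  obtain ⟨a, b, j, hj1, hj2, hj3⟩ := snake_boxes hx0.le (Real.exp_pos _).le hHP hM1
  have hnj : n ≤ j := hnM.trans hj1
  have hmass : 0 < mass (1 / N) := mass_pos (by positivity)
  refine ⟨L, M, a, ?_, ?_⟩
  · rw [← hs]
    have hLr : (1 : ℝ) ≤ L := by exact_mod_cast hL1
    have hMr : (1 : ℝ) ≤ M := by exact_mod_cast hM1
    push_cast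
    have h3 : (2 * (L : ℝ) + 1) * M + L ≤ 4 * (L * M) := by nlinarith
    have h4 : (L : ℝ) * M ≤ (A * (Real.log N ^ 6 / mass (1 / N))) * (2 * s) :=
      mul_le_mul hLA hM2 (by positivity) (by positivity)
    nlinarith
  · have hcut := cut (Bo L ((2 * L + 1) * M)) a b hnj
    obtain ⟨F, hF⟩ : ∃ F : ℝ, F = (conf (Bo L ((2 * L + 1) * M)) a n : ℝ) := ⟨_, rfl⟩
    have hF0 : 0 ≤ F := by rw [hF]; positivity
    have hcut' : (nJ (Bo L ((2 * L + 1) * M)) a b j : ℝ) ≤ F * TH795.EP.c (j - n) := by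
      rw [hF]
      exact_mod_cast hcut
    have hc := h2 j (by omega) (j - n) (by omega)
    unfold TH795.EP2.q at hc
    have hlogj : Real.log j ^ 2 ≤ 972 * (n / N * w ^ 2) := by
      have h3 : (j : ℝ) ≤ (n : ℝ) ^ 9 := by
        have h4 : (j : ℝ) ≤ (M : ℝ) ^ 2 * (2 * (L : ℝ) + 1) ^ 2 := by exact_mod_cast hj2
        have hLr : (1 : ℝ) ≤ L := by exact_mod_cast hL1
        have h5 : (2 * (L : ℝ) + 1) ^ 2 ≤ 9 * (n : ℝ) ^ 4 := by
          have h6 : (L : ℝ) ≤ (n : ℝ) ^ 2 := by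
            have h7 : (L : ℝ) ≤ (N : ℝ) ^ 2 := by exact_mod_cast hLN
            exact h7.trans (pow_le_pow_left₀ hNp.le hnN 2)
          calc (2 * (L : ℝ) + 1) ^ 2 ≤ (3 * (n : ℝ) ^ 2) ^ 2 :=
                pow_le_pow_left₀ (by positivity) (by linarith) 2
            _ = _ := by ring
        have h6 : (M : ℝ) ^ 2 ≤ 4 * n := by
          refine hMn.trans ?_
          have : (n : ℝ) / N ≤ n := div_le_self hnp.le (by linarith)
          linarith
        have h7 : (36 : ℝ) ≤ (n : ℝ) ^ 4 := by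
          have : (3 : ℝ) ^ 4 ≤ (n : ℝ) ^ 4 := pow_le_pow_left₀ (by norm_num) (by linarith) 4
          linarith
        calc (j : ℝ) ≤ (M : ℝ) ^ 2 * (2 * (L : ℝ) + 1) ^ 2 := h4
          _ ≤ (4 * n) * (9 * (n : ℝ) ^ 4) := mul_le_mul h6 h5 (by positivity) (by positivity)
          _ = 36 * (n : ℝ) ^ 5 := by ring
          _ ≤ (n : ℝ) ^ 4 * (n : ℝ) ^ 5 := mul_le_mul_of_nonneg_right h7 (by positivity)
          _ = _ := by ring
      have hjp : (0 : ℝ) < j := by exact_mod_cast (by omega : 0 < j)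
      have h8 := Real.log_le_log hjp h3
      rw [Real.log_pow] at h8
      push_cast at h8
      have h9 := pow_le_pow_left₀ (Real.log_natCast_nonneg j) h8 2
      have h10 := X144.Fi.log_blob (by omega : 2 ≤ N) hn
      rw [← hw] at h10
      nlinarith
    have hnw : (n : ℝ) / N * w ^ 2 ≤ n / N * w ^ 6 :=
      mul_le_mul_of_nonneg_left hw62 (by positivity)
    obtain ⟨E, hE⟩ : ∃ E, E = Real.exp (K2 * (972 * (n / N * w ^ 2))) := ⟨_, rfl⟩
    have hcE : (TH795.EP.c (j - n) : ℝ) ≤ H981.mu ^ (j - n) * E := by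
      refine hc.trans (mul_le_mul_of_nonneg_left ?_ (by positivity))
      rw [hE]
      exact Real.exp_le_exp.2 (mul_le_mul_of_nonneg_left hlogj hK2)
    have hE0 : 0 < E := by rw [hE]; exact Real.exp_pos _
    have hmux : H981.mu * x = 1 := by rw [hx, mul_one_div, div_self hmu.ne']
    have hxj : H981.mu ^ (j - n) * x ^ j = x ^ n := by
      have : x ^ j = x ^ (j - n) * x ^ n := by rw [← pow_add]; congr 1; omega
      rw [this, ← mul_assoc, ← mul_pow, hmux, one_pow, one_mul]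
    obtain ⟨W, hW⟩ : ∃ W, W = Real.exp (-(K1 * w ^ 6)) ^ (M ^ 2) * x ^ (M ^ 2) := ⟨_, rfl⟩
    rw [← hW] at hj3
    have h3 : W ≤ F * E * x ^ n := by
      calc W ≤ x * (nJ (Bo L ((2 * L + 1) * M)) a b j * x ^ j) := hj3
        _ ≤ 1 * ((F * (H981.mu ^ (j - n) * E)) * x ^ j) := by
            apply mul_le_mul hx1 _ (by positivity) (by norm_num)
            apply mul_le_mul_of_nonneg_right _ (by positivity)
            exact hcut'.trans (mul_le_mul_of_nonneg_left hcE hF0)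
        _ = F * E * (H981.mu ^ (j - n) * x ^ j) := by ring
        _ = _ := by rw [hxj]
    have h4 : H981.mu ^ n * W ≤ F * E := by
      have h5 := mul_le_mul_of_nonneg_left h3 (show 0 ≤ H981.mu ^ n by positivity)
      have h6 : H981.mu ^ n * (F * E * x ^ n) = F * E := by
        calc H981.mu ^ n * (F * E * x ^ n) = F * E * (H981.mu ^ n * x ^ n) := by ring
          _ = _ := by rw [← mul_pow, hmux, one_pow, mul_one]
      rwa [h6] at h5
    have hWexp : Real.exp (-((4 * K1 + 4 * Real.log H981.mu) * (n / N * w ^ 6))) ≤ W := by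
      have h5 : W = Real.exp (-(((M : ℝ) ^ 2) * (K1 * w ^ 6 + Real.log H981.mu))) := by
        have hxe : x = Real.exp (-Real.log H981.mu) := by
          rw [Real.exp_neg, Real.exp_log hmu, hx, one_div]
        rw [hW, hxe, ← Real.exp_nat_mul, ← Real.exp_nat_mul, ← Real.exp_add]
        congr 1
        push_cast
        ring
      rw [h5]
      apply Real.exp_le_exp.2
      have h6 : K1 * w ^ 6 + Real.log H981.mu ≤ (K1 + Real.log H981.mu) * w ^ 6 := by nlinarith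
      have h7 : (M : ℝ) ^ 2 * (K1 * w ^ 6 + Real.log H981.mu) ≤
          (4 * (n / N)) * ((K1 + Real.log H981.mu) * w ^ 6) :=
        mul_le_mul hMn h6 (by positivity) (by positivity)
      nlinarith
    rw [← hF, ← hw]
    have h8 : Real.exp (-((4 * K1 + 4 * Real.log H981.mu + 972 * K2) * (n / N * w ^ 6))) * E ≤
        Real.exp (-((4 * K1 + 4 * Real.log H981.mu) * (n / N * w ^ 6))) := by
      rw [hE, ← Real.exp_add]
      apply Real.exp_le_exp.2
      nlinarith [mul_le_mul_of_nonneg_left hnw hK2]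
    have h9 : (H981.mu ^ n * Real.exp (-((4 * K1 + 4 * Real.log H981.mu + 972 * K2) *
        (n / N * w ^ 6)))) * E ≤ F * E := by
      calc _ = H981.mu ^ n * (Real.exp (-((4 * K1 + 4 * Real.log H981.mu + 972 * K2) *
            (n / N * w ^ 6))) * E) := by ring
        _ ≤ H981.mu ^ n * W := mul_le_mul_of_nonneg_left (h8.trans hWexp) (by positivity)
        _ ≤ _ := h4
    exact le_of_mul_le_mul_right h9 hE0

end Pool.Agent.X144.Cp
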