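import Pool.Agent.X144.Cp.Path
import Pool.Agent.X144.Fi.Cost

/-!
# The two descriptions of the walks on the square lattice agree
-/

set_option autoImplicit false

namespace Pool.Agent.X144.Cp

open Filter Topology
open Pool.Agent.H122R3 (SX.Adj)

theorem mem_walks (n : ℕ) (ω : Fin (n + 1) → ℤ × ℤ) :
    ω ∈ H122R3.SX.walks n ↔ H981.IsSAW n ω := by
  unfold H122R3.SX.walks H981.IsSAW H122R3.SX.Adj
  constructor
  · rintro ⟨h1, h2, h3⟩
    refine ⟨h1, ?_, h2⟩
    intro i
    rw [abs_sub_comm, abs_sub_comm (ω i.succ).2]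
    exact h3 i
  · rintro ⟨h1, h2, h3⟩
    refine ⟨h1, h3, ?_⟩
    intro i
    rw [abs_sub_comm, abs_sub_comm (ω i.castSucc).2]
    exact h2 i

theorem c_eq (n : ℕ) : H122R3.SX.c n = TH795.EP.c n := by
  rw [← H122R3.SX.ncard_walks, ← TH795.EP2.card_walks]
  have : H122R3.SX.walks n = {ω | H981.IsSAW n ω} := by
    ext ω
    exact mem_walks n ω
  rw [this]
  exact (Nat.card_coe_set_eq _).symm

theorem tendsto_log5 (K : ℝ) : Tendsto (fun n : ℕ => Real.exp (K * Real.log n ^ 5 / n)) atTop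
    (𝓝 1) := by
  have h1 : Tendsto (fun x : ℝ => Real.log x ^ 5 / x) atTop (𝓝 0) :=
    (Real.isLittleO_pow_log_id_atTop (n := 5)).tendsto_div_nhds_zero
  have h2 := h1.comp tendsto_natCast_atTop_atTop (α := ℕ)
  have h3 := (h2.const_mul K)
  rw [mul_zero] at h3
  have h4 := (Real.continuous_exp.tendsto 0).comp h3
  rw [Real.exp_zero] at h4
  refine h4.congr ?_
  intro n
  simp only [Function.comp]
  congr 1
  ring

theorem mu_eq : H122R3.SY.mu = H981.mu := by
  obtain ⟨K, hB⟩ := H122R3.SY.exists_Bd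
  have h1 : Tendsto (fun n : ℕ => (TH795.EP.c n : ℝ) ^ (1 / (n : ℝ))) atTop (𝓝 H981.mu) := by
    have h := H981.tendsto_root
    refine h.congr ?_
    intro n
    rw [TH795.EP.c_eq]
  have h2 : Tendsto (fun n : ℕ => H122R3.SY.mu * Real.exp (K * Real.log n ^ 5 / n)) atTop
      (𝓝 H122R3.SY.mu) := by
    have := (tendsto_log5 K).const_mul H122R3.SY.mu
    rwa [mul_one] at this
  have hmu : 0 ≤ H122R3.SY.mu := by linarith [hB.one]
  have h3 : Tendsto (fun n : ℕ => (TH795.EP.c n : ℝ) ^ (1 / (n : ℝ))) atTop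
      (𝓝 H122R3.SY.mu) := by
    refine tendsto_of_tendsto_of_tendsto_of_le_of_le' tendsto_const_nhds h2 ?_ ?_
    · filter_upwards [eventually_ge_atTop 2] with n hn
      have h4 := hB.low n hn
      rw [c_eq] at h4
      have h5 := Real.rpow_le_rpow (pow_nonneg hmu n) h4 (show 0 ≤ 1 / (n : ℝ) by positivity)
      rwa [one_div, Real.pow_rpow_inv_natCast hmu (by omega), ← one_div] at h5
    · filter_upwards [eventually_ge_atTop 2] with n hn
      have h4 := hB.up n hn
      rw [c_eq] at h4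
      have h5 := Real.rpow_le_rpow (by positivity) h4 (show 0 ≤ 1 / (n : ℝ) by positivity)
      refine h5.trans (le_of_eq ?_)
      rw [Real.mul_rpow (pow_nonneg hmu n) (Real.exp_pos _).le, one_div,
        Real.pow_rpow_inv_natCast hmu (by omega), ← Real.exp_mul]
      rfl
  exact tendsto_nhds_unique h3 h1

end Pool.Agent.X144.Cp
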