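import Mathlib

/-!
# The snake through the columns `0, …, M - 1`
-/

set_option autoImplicit false

namespace Pool.Agent.X144.Cp

/-- the snake -/
def snake (M t : ℕ) : ℤ × ℤ :=
  (if (t / M) % 2 = 0 then ((t % M : ℕ) : ℤ) else (M : ℤ) - 1 - ((t % M : ℕ) : ℤ), ((t / M : ℕ) : ℤ))

theorem snake_one {M : ℕ} (hM : 1 ≤ M) (t : ℕ) : 0 ≤ (snake M t).1 ∧ (snake M t).1 ≤ M - 1 := by
  have h := Nat.mod_lt t (show 0 < M by omega)
  unfold snake
  simp only
  split_ifs <;> constructor <;> push_cast <;> omega

theorem snake_two (M t : ℕ) : (snake M t).2 = ((t / M : ℕ) : ℤ) := rfl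

theorem snake_inj {M : ℕ} : Function.Injective (snake M) := by
  intro s t h
  unfold snake at h
  obtain ⟨h1, h2⟩ := Prod.mk.inj h
  have h3 : s / M = t / M := by exact_mod_cast h2
  rw [h3] at h1
  have h4 : s % M = t % M := by
    split_ifs at h1 <;> omega
  rw [← Nat.div_add_mod s M, ← Nat.div_add_mod t M, h3, h4]

theorem snake_step {M : ℕ} (hM : 1 ≤ M) (t : ℕ) :
    |(snake M (t + 1)).1 - (snake M t).1| + |(snake M (t + 1)).2 - (snake M t).2| = 1 := by
  have h := Nat.mod_lt t (show 0 < M by omega)
  have h0 := Nat.div_add_mod t M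
  rcases Nat.lt_or_ge (t % M + 1) M with h1 | h1
  · have e1 : (t + 1) / M = t / M := by
      rw [Nat.div_eq_iff (by omega)]
      rw [mul_comm] at h0
      constructor <;> omega
    have e2 : (t + 1) % M = t % M + 1 := by
      have := Nat.div_add_mod (t + 1) M
      rw [e1] at this
      omega
    unfold snake
    simp only [e1, e2]
    split_ifs
    · push_cast
      simp
    · push_cast
      have e : (M : ℤ) - 1 - ((t : ℤ) % M + 1) - (M - 1 - (t : ℤ) % M) = -1 := by ring
      rw [e]
      simp
  · have e0 : t % M + 1 = M := by omega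
    have e1 : (t + 1) / M = t / M + 1 := by
      rw [Nat.div_eq_iff (by omega)]
      rw [mul_comm] at h0
      constructor
      · rw [add_mul]; omega
      · rw [add_mul]; omega
    have e2 : (t + 1) % M = 0 := by
      have := Nat.div_add_mod (t + 1) M
      rw [e1, mul_add] at this
      omega
    unfold snake
    simp only [e1, e2]
    have e3 : ((t % M : ℕ) : ℤ) = M - 1 := by omega
    rw [e3]
    rcases Nat.mod_two_eq_zero_or_one (t / M) with h2 | h2
    · have h3 : (t / M + 1) % 2 = 1 := by omega
      rw [h2, h3]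
      push_cast
      simp
    · have h3 : (t / M + 1) % 2 = 0 := by omega
      rw [h2, h3]
      push_cast
      simp

end Pool.Agent.X144.Cp
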