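import Pool.Agent.X144.Cp.Cat
import Pool.Agent.X144.Cp.Snake

/-!
# Paths of boxes
-/

set_option autoImplicit false

namespace Pool.Agent.X144.Cp

open Pool.Agent.H122R3.SX (Adj)

/-- the box with centre `q` and half-side `L` -/
def Bx (L : ℕ) (q : ℤ × ℤ) : Set (ℤ × ℤ) := {p | |p.1 - q.1| ≤ L ∧ |p.2 - q.2| ≤ L}

/-- the centre of a coarse cell -/
def ctr (L : ℕ) (b : ℤ × ℤ) : ℤ × ℤ := ((2 * L + 1) * b.1, (2 * L + 1) * b.2)

/-- the midpoint of a side -/
def side (L : ℕ) (q d : ℤ × ℤ) : ℤ × ℤ := (q.1 + L * d.1, q.2 + L * d.2)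

/-- unit directions -/
def IsU (d : ℤ × ℤ) : Prop := |d.1| + |d.2| = 1

theorem IsU.cases {d : ℤ × ℤ} (h : IsU d) :
    d = (1, 0) ∨ d = (-1, 0) ∨ d = (0, 1) ∨ d = (0, -1) := by
  obtain ⟨u, v⟩ := d
  unfold IsU at h
  simp only [Prod.mk.injEq] at h ⊢
  rcases abs_cases u with ⟨h1, _⟩ | ⟨h1, _⟩ <;> rcases abs_cases v with ⟨h2, _⟩ | ⟨h2, _⟩ <;> omega

theorem IsU.neg {d : ℤ × ℤ} (h : IsU d) : IsU (-d.1, -d.2) := by
  unfold IsU at *
  simp only [abs_neg]
  exact h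

theorem eq_of_near {L : ℕ} {p u v : ℤ} (h1 : |p - (2 * L + 1) * u| ≤ L)
    (h2 : |p - (2 * L + 1) * v| ≤ L) : u = v := by
  rw [abs_le] at h1 h2
  by_contra hne
  rcases lt_or_gt_of_ne hne with h | h
  · have : (1 : ℤ) ≤ v - u := by omega
    nlinarith [h1.1, h1.2, h2.1, h2.2]
  · have : (1 : ℤ) ≤ u - v := by omega
    nlinarith [h1.1, h1.2, h2.1, h2.2]

theorem disj {L : ℕ} {b b' : ℤ × ℤ} (h : b ≠ b') : Disjoint (Bx L (ctr L b)) (Bx L (ctr L b')) := by
  rw [Set.disjoint_left]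
  rintro p ⟨h1, h2⟩ ⟨h3, h4⟩
  exact h (Prod.ext (eq_of_near h1 h3) (eq_of_near h2 h4))

/-- the pieces: crossings of a box between the midpoints of two sides -/
def HP (L m : ℕ) (x w : ℝ) : Prop := ∀ d e : ℤ × ℤ, IsU d → IsU e → d ≠ e →
  ∃ j : ℕ, m ≤ j ∧ j < (2 * L + 1) ^ 2 ∧ w ≤ nJ (Bx L 0) (side L 0 d) (side L 0 e) j * x ^ j

theorem HP.translate {L m : ℕ} {x w : ℝ} (hx : 0 ≤ x) (h : HP L m x w) (q : ℤ × ℤ) {d e : ℤ × ℤ}
    (hd : IsU d) (he : IsU e) (hde : d ≠ e) :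
    ∃ j : ℕ, m ≤ j ∧ j < (2 * L + 1) ^ 2 ∧
      w ≤ nJ (Bx L q) (side L q d) (side L q e) j * x ^ j := by
  obtain ⟨j, h1, h2, h3⟩ := h d e hd he hde
  refine ⟨j, h1, h2, h3.trans ?_⟩
  apply mul_le_mul_of_nonneg_right _ (pow_nonneg hx _)
  have h4 := map_le (φ := fun p => (p.1 + q.1, p.2 + q.2)) (A := Bx L 0) (D := Bx L q) (by
      intro p p' hp
      simp only [Prod.mk.injEq] at hp
      exact Prod.ext (by omega) (by omega)) (by
      intro p p' hp
      unfold Adj at *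
      simp only [add_sub_add_right_eq_sub]
      exact hp) (by
      rintro p ⟨h5, h6⟩
      refine ⟨?_, ?_⟩
      · simpa using h5
      · simpa using h6) (side L 0 d) (side L 0 e) j
  have e1 : ((side L 0 d).1 + q.1, (side L 0 d).2 + q.2) = side L q d := by
    unfold side
    simp only [Prod.fst_zero, Prod.snd_zero, zero_add]
    exact Prod.ext (add_comm _ _) (add_comm _ _)
  have e2 : ((side L 0 e).1 + q.1, (side L 0 e).2 + q.2) = side L q e := by
    unfold side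
    simp only [Prod.fst_zero, Prod.snd_zero, zero_add]
    exact Prod.ext (add_comm _ _) (add_comm _ _)
  simp only [e1, e2] at h4
  exact_mod_cast h4

/-- the union of the first boxes -/
def Un (L : ℕ) (b : ℕ → ℤ × ℤ) (t : ℕ) : Set (ℤ × ℤ) := {p | ∃ s ≤ t, p ∈ Bx L (ctr L (b s))}

/-- the directions of a path -/
def dir (b : ℕ → ℤ × ℤ) (t : ℕ) : ℤ × ℤ := ((b (t + 1)).1 - (b t).1, (b (t + 1)).2 - (b t).2)

theorem chain_boxes {L m : ℕ} {x w : ℝ} (hx : 0 ≤ x) (hw : 0 ≤ w) (h : HP L m x w)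
    {b : ℕ → ℤ × ℤ} (hb : Function.Injective b) (hu : ∀ t, IsU (dir b t)) {d : ℤ × ℤ} (hd : IsU d)
    (hd0 : d ≠ dir b 0) (t : ℕ) :
    ∃ j : ℕ, (t + 1) * m ≤ j ∧ j + 1 ≤ (t + 1) * (2 * L + 1) ^ 2 ∧
      w ^ (t + 1) * x ^ t ≤ nJ (Un L b t) (side L (ctr L (b 0)) d)
        (side L (ctr L (b t)) (dir b t)) j * x ^ j := by
  induction t with
  | zero =>
    obtain ⟨j, h1, h2, h3⟩ := h.translate hx (ctr L (b 0)) hd (hu 0) hd0
    refine ⟨j, by omega, by omega, ?_⟩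
    rw [zero_add, pow_one, pow_zero, mul_one]
    refine h3.trans (mul_le_mul_of_nonneg_right ?_ (pow_nonneg hx _))
    have := nJ_mono (D := Bx L (ctr L (b 0))) (D' := Un L b 0) (fun p hp => ⟨0, le_rfl, hp⟩)
      (side L (ctr L (b 0)) d) (side L (ctr L (b 0)) (dir b 0)) j
    exact_mod_cast this
  | succ t ih =>
    obtain ⟨j, h1, h2, h3⟩ := ih
    have hne : (-(dir b t).1, -(dir b t).2) ≠ dir b (t + 1) := by
      intro he
      have e1 := congrArg Prod.fst he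
      have e2 := congrArg Prod.snd he
      unfold dir at e1 e2
      simp only at e1 e2
      have : b (t + 1 + 1) = b t := Prod.ext (by omega) (by omega)
      have := hb this
      omega
    obtain ⟨j', h4, h5, h6⟩ := h.translate hx (ctr L (b (t + 1))) (hu t).neg (hu (t + 1)) hne
    refine ⟨j + j' + 1, ?_, ?_, ?_⟩
    · rw [add_mul (t + 1) 1 m]; omega
    · rw [add_mul (t + 1) 1 ((2 * L + 1) ^ 2)]; omega
    · have hdisj : Disjoint (Un L b t) (Bx L (ctr L (b (t + 1)))) := by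
        rw [Set.disjoint_left]
        rintro p ⟨s, hs, hp⟩ hp'
        have hne : b s ≠ b (t + 1) := by
          intro he
          have := hb he
          omega
        exact Set.disjoint_left.1 (disj hne) hp hp'
      have hadj : Adj (side L (ctr L (b t)) (dir b t))
          (side L (ctr L (b (t + 1))) (-(dir b t).1, -(dir b t).2)) := by
        unfold Adj side ctr dir
        simp only
        have hut := hu t
        unfold IsU dir at hut
        simp only at hut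
        have e1 : (2 * (L : ℤ) + 1) * (b t).1 + L * ((b (t + 1)).1 - (b t).1) -
            ((2 * L + 1) * (b (t + 1)).1 + L * -((b (t + 1)).1 - (b t).1)) =
            -((b (t + 1)).1 - (b t).1) := by ring
        have e2 : (2 * (L : ℤ) + 1) * (b t).2 + L * ((b (t + 1)).2 - (b t).2) -
            ((2 * L + 1) * (b (t + 1)).2 + L * -((b (t + 1)).2 - (b t).2)) =
            -((b (t + 1)).2 - (b t).2) := by ring
        rw [e1, e2, abs_neg, abs_neg]
        exact hut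
      have h7 := cat (j₁ := j) (j₂ := j') (a₁ := side L (ctr L (b 0)) d)
        (b₂ := side L (ctr L (b (t + 1))) (dir b (t + 1))) hdisj hadj
      have h8 : nJ (Un L b t ∪ Bx L (ctr L (b (t + 1)))) (side L (ctr L (b 0)) d)
          (side L (ctr L (b (t + 1))) (dir b (t + 1))) (j + j' + 1) ≤
          nJ (Un L b (t + 1)) (side L (ctr L (b 0)) d)
          (side L (ctr L (b (t + 1))) (dir b (t + 1))) (j + j' + 1) := by
        apply nJ_mono
        rintro p (⟨s, hs, hp⟩ | hp)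
        · exact ⟨s, by omega, hp⟩
        · exact ⟨t + 1, le_rfl, hp⟩
      have h9 : ((nJ (Un L b t) (side L (ctr L (b 0)) d) (side L (ctr L (b t)) (dir b t)) j : ℝ)) *
          (nJ (Bx L (ctr L (b (t + 1)))) (side L (ctr L (b (t + 1))) (-(dir b t).1, -(dir b t).2))
          (side L (ctr L (b (t + 1))) (dir b (t + 1))) j' : ℝ) ≤
          (nJ (Un L b (t + 1)) (side L (ctr L (b 0)) d)
          (side L (ctr L (b (t + 1))) (dir b (t + 1))) (j + j' + 1) : ℝ) := by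
        exact_mod_cast h7.trans h8
      have h10 := mul_le_mul h3 h6 hw (by positivity)
      have h11 : 0 ≤ x ^ (j + j' + 1) := pow_nonneg hx _
      calc w ^ (t + 1 + 1) * x ^ (t + 1) = w ^ (t + 1) * x ^ t * w * x := by ring
        _ ≤ _ * x := mul_le_mul_of_nonneg_right h10 hx
        _ = (nJ (Un L b t) (side L (ctr L (b 0)) d) (side L (ctr L (b t)) (dir b t)) j : ℝ) *
          (nJ (Bx L (ctr L (b (t + 1)))) (side L (ctr L (b (t + 1))) (-(dir b t).1, -(dir b t).2))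
          (side L (ctr L (b (t + 1))) (dir b (t + 1))) j' : ℝ) * x ^ (j + j' + 1) := by ring
        _ ≤ _ := mul_le_mul_of_nonneg_right h9 h11

theorem snake_dir {M : ℕ} (hM : 1 ≤ M) (t : ℕ) : IsU (dir (snake M) t) := snake_step hM t

theorem snake_dir_zero {M : ℕ} (hM : 1 ≤ M) : ((-1, 0) : ℤ × ℤ) ≠ dir (snake M) 0 := by
  intro h
  have h1 := congrArg Prod.fst h
  unfold dir at h1
  simp only at h1
  have h2 := snake_one hM 1
  have h3 : (snake M 0).1 = 0 := by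
    unfold snake
    simp
  rw [h3] at h1
  simp only [zero_add] at h1
  omega

/-- **The snake of boxes.** -/
theorem snake_boxes {L m : ℕ} {x w : ℝ} (hx : 0 ≤ x) (hw : 0 ≤ w) (h : HP L m x w) {M : ℕ}
    (hM : 1 ≤ M) : ∃ (a b : ℤ × ℤ) (j : ℕ), M ^ 2 * m ≤ j ∧ j ≤ M ^ 2 * (2 * L + 1) ^ 2 ∧
      w ^ (M ^ 2) * x ^ (M ^ 2) ≤ x * (nJ {p | (-(L : ℤ) ≤ p.1 ∧ p.1 ≤ (2 * L + 1) * M) ∧
        (-(L : ℤ) ≤ p.2 ∧ p.2 ≤ (2 * L + 1) * M)} a b j * x ^ j) := by
  obtain ⟨t, ht⟩ : ∃ t, t + 1 = M ^ 2 :=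
    ⟨M ^ 2 - 1, Nat.sub_add_cancel (Nat.one_le_pow _ _ (by omega))⟩
  obtain ⟨j, h1, h2, h3⟩ := chain_boxes hx hw h snake_inj (snake_dir hM)
    (show IsU (-1, 0) by unfold IsU; simp) (snake_dir_zero hM) t
  refine ⟨side L (ctr L (snake M 0)) (-1, 0), side L (ctr L (snake M t)) (dir (snake M) t), j,
    by rw [← ht]; exact h1, by rw [← ht]; omega, ?_⟩
  rw [← ht]
  have h4 := mul_le_mul_of_nonneg_right h3 hx
  have e : w ^ (t + 1) * x ^ (t + 1) = w ^ (t + 1) * x ^ t * x := by ring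
  rw [e, mul_comm x]
  refine h4.trans (mul_le_mul_of_nonneg_right (mul_le_mul_of_nonneg_right ?_ (pow_nonneg hx _)) hx)
  have h5 := nJ_mono (D := Un L (snake M) t) (D' := {p | (-(L : ℤ) ≤ p.1 ∧ p.1 ≤ (2 * L + 1) * M) ∧
        (-(L : ℤ) ≤ p.2 ∧ p.2 ≤ (2 * L + 1) * M)}) (by
    rintro p ⟨s, hs, hp1, hp2⟩
    have h6 := snake_one hM s
    have h7 : (snake M s).2 ≤ M - 1 := by
      rw [snake_two]
      have : s / M ≤ M - 1 := by
        have : s / M < M := by
          rw [Nat.div_lt_iff_lt_mul (by omega)]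
          nlinarith
        omega
      push_cast
      omega
    have h8 : 0 ≤ (snake M s).2 := by rw [snake_two]; positivity
    unfold ctr at hp1 hp2
    simp only at hp1 hp2
    rw [abs_le] at hp1 hp2
    have hL : (0 : ℤ) ≤ 2 * L + 1 := by positivity
    have h9 : 0 ≤ (2 * (L : ℤ) + 1) * (snake M s).1 := mul_nonneg hL h6.1
    have h10 : 0 ≤ (2 * (L : ℤ) + 1) * (snake M s).2 := mul_nonneg hL h8
    have h11 := mul_le_mul_of_nonneg_left h6.2 hL
    have h12 := mul_le_mul_of_nonneg_left h7 hL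
    have hL0 : (0 : ℤ) ≤ L := by positivity
    refine ⟨⟨by linarith [hp1.1], by linarith [hp1.2]⟩, ⟨by linarith [hp2.1], by linarith [hp2.2]⟩⟩)
    (side L (ctr L (snake M 0)) (-1, 0)) (side L (ctr L (snake M t)) (dir (snake M) t)) j
  exact_mod_cast h5

end Pool.Agent.X144.Cp
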