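import Pool.Agent.X144.Cp.Fn
import Pool.Agent.H122R3.SX.Wed

/-!
# Long pieces in boxes
-/

set_option autoImplicit false

namespace Pool.Agent.X144.Cp

open scoped ENNReal
open Pool.Agent.H122R3.SX (Adj)
open Pool.Agent.H122R3.HX (ZL TL)

theorem wed_side {L : ℕ} {d : ℤ × ℤ} (hd : IsU d) :
    H122R3.SZ.Wed (Bx L 0) 1 L (side L 0 d) 0 := by
  refine ⟨fun p => ((L - p.2) * d.1 - p.1 * d.2, (L - p.2) * d.2 + p.1 * d.1), L, ?_, ?_, le_rfl,
    ?_, ?_, ?_⟩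
  · rw [Function.bijective_iff_has_inverse]
    refine ⟨fun q => (q.2 * d.1 - q.1 * d.2, L - (q.1 * d.1 + q.2 * d.2)), ?_, ?_⟩
    · rintro ⟨x, y⟩
      rcases hd.cases with rfl | rfl | rfl | rfl <;> simp
    · rintro ⟨x, y⟩
      rcases hd.cases with rfl | rfl | rfl | rfl <;> simp
  · rintro ⟨x, y⟩ ⟨x', y'⟩
    unfold Adj
    rcases hd.cases with rfl | rfl | rfl | rfl <;> simp only <;>
    rcases abs_cases (x - x') with ⟨h1, _⟩ | ⟨h1, _⟩ <;>
    rcases abs_cases (y - y') with ⟨h2, _⟩ | ⟨h2, _⟩ <;>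
    rw [h1, h2] <;>
    constructor <;> intro h <;> (try (rw [abs_eq_max_neg, abs_eq_max_neg] at h)) <;>
    (try (rw [abs_eq_max_neg, abs_eq_max_neg])) <;> omega
  · unfold side
    simp
  · simp
  · rintro ⟨x, y⟩ ⟨h1, h2, h3⟩
    simp only at h1 h2 h3
    rw [one_mul] at h1
    have h4 : |x| ≤ y := by exact_mod_cast h1
    rw [abs_le] at h4
    unfold Bx
    simp only [Set.mem_ofPred_eq, Prod.fst_zero, Prod.snd_zero, sub_zero]
    rcases hd.cases with rfl | rfl | rfl | rfl <;> simp only <;>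
    constructor <;> rw [abs_le] <;> constructor <;> omega

theorem box_len (L : ℕ) (l : List (ℤ × ℤ)) (hl : l.Nodup) (h : ∀ p ∈ l, p ∈ Bx L 0) :
    l.length ≤ (2 * L + 1) ^ 2 := by
  have h1 : ∀ p ∈ Bx L 0, |(p.1 : ℝ)| ≤ 1 * L ∧ |(p.2 : ℝ)| ≤ 1 * L := by
    rintro p ⟨h2, h3⟩
    simp only [Prod.fst_zero, Prod.snd_zero, sub_zero] at h2 h3
    rw [one_mul]
    exact ⟨by exact_mod_cast h2, by exact_mod_cast h3⟩
  obtain ⟨h2, h3⟩ := H122R3.HX.box_bound h1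
  simp only [abs_one, one_mul, Nat.floor_natCast] at h3
  exact H122R3.SY.nodup_len h2 h3 l hl h

theorem lower : ∃ K : ℝ, 0 ≤ K ∧ ∀ L : ℕ, 2 ≤ L → ∀ d e : ℤ × ℤ, IsU d → IsU e →
    Real.exp (-(K * Real.log L ^ 6)) ≤ ∑ j ∈ Finset.range ((2 * L + 1) ^ 2),
      (nJ (Bx L 0) (side L 0 d) (side L 0 e) j : ℝ) * (1 / H981.mu) ^ j := by
  obtain ⟨K, hK, h⟩ := H122R3.SZ.chain 1 1 one_pos 1
  refine ⟨K, hK, ?_⟩
  intro L hL d e hd he
  have hmu := H981.mu_pos
  have h1 := h L hL (Bx L 0) (by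
    rintro p ⟨h2, h3⟩
    simp only [Prod.fst_zero, Prod.snd_zero, sub_zero] at h2 h3
    rw [one_mul]
    exact ⟨by exact_mod_cast h2, by exact_mod_cast h3⟩)
    (fun i => if i = 0 then side L 0 d else if i = 1 then 0 else side L 0 e) (by
    intro i hi
    interval_cases i
    · left
      simpa using wed_side hd
    · right
      simpa using wed_side he)
  simp only [if_true, Nat.reduceAdd, OfNat.ofNat_ne_zero, if_false, OfNat.ofNat_ne_one] at h1
  have h2 := h1.trans (ZL_le_sum H122R3.SY.xe (side L 0 d) (side L 0 e) (box_len L))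
  have h3 : (H122R3.SY.xe : ℝ≥0∞) = ENNReal.ofReal (1 / H981.mu) := by
    unfold H122R3.SY.xe
    rw [mu_eq]
  have h4 : ∑ j ∈ Finset.range ((2 * L + 1) ^ 2),
      (nJ (Bx L 0) (side L 0 d) (side L 0 e) j : ℝ≥0∞) * H122R3.SY.xe ^ j =
      ENNReal.ofReal (∑ j ∈ Finset.range ((2 * L + 1) ^ 2),
      (nJ (Bx L 0) (side L 0 d) (side L 0 e) j : ℝ) * (1 / H981.mu) ^ j) := by
    rw [ENNReal.ofReal_sum_of_nonneg (fun j _ => by positivity)]
    apply Finset.sum_congr rfl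
    intro j _
    rw [ENNReal.ofReal_mul (by positivity), ENNReal.ofReal_natCast,
      ENNReal.ofReal_pow (by positivity), h3]
  rw [h4] at h2
  exact (ENNReal.ofReal_le_ofReal_iff (Finset.sum_nonneg (fun j _ => by positivity))).1 h2

end Pool.Agent.X144.Cp
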