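import Pool.Agent.X144.Cp.Piece
import Pool.Agent.Y981.L2X.Dir

/-!
# Long pieces in boxes: the short paths are negligible
-/

set_option autoImplicit false

namespace Pool.Agent.X144.Cp

open Pool.Agent.Y981.L2 (far mass)

theorem a_le_far {j : ℕ} {x y : ℤ} {r : ℝ} (h : r ≤ Real.sqrt ((x : ℝ) ^ 2 + (y : ℝ) ^ 2)) :
    (TH795.EP.a j x y : ℝ) ≤ TH795.EP.c j * far j r := by
  have hc : (0 : ℝ) < TH795.EP.c j := TH795.EP2.c_pos j
  unfold far
  rw [mul_div_cancel₀ _ hc.ne']
  have h1 : TH795.EP.a j x y ≤ (TH795.EP.fs (fun w => H981.Saw w ∧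
      r ≤ Real.sqrt ((H981.dx w : ℝ) ^ 2 + (H981.dy w : ℝ) ^ 2)) j).card := by
    unfold TH795.EP.a
    apply Finset.card_le_card
    intro w hw
    rw [TH795.EP.mem_fs] at hw ⊢
    obtain ⟨⟨h2, h3, h4⟩, h5⟩ := hw
    refine ⟨⟨h2, ?_⟩, h5⟩
    rw [h3, h4]
    exact h
  exact_mod_cast h1

theorem short : ∃ K : ℝ, 0 ≤ K ∧ ∀ m : ℕ, 2 ≤ m → ∀ L : ℕ, 2 ≤ L → ∀ d e : ℤ × ℤ, IsU d → IsU e →
    d ≠ e → ∑ j ∈ Finset.range m,
      (nJ (Bx L 0) (side L 0 d) (side L 0 e) j : ℝ) * (1 / H981.mu) ^ j ≤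
      m * Real.exp (-(mass (1 / m) * L / 2) + 1 + K * Real.log m ^ 2) := by
  obtain ⟨K1, hK1, h1⟩ := X144.Fi.far_mass
  obtain ⟨K2, hK2, h2, -⟩ := TH795.EP2.exists_K
  refine ⟨K1 + K2, by positivity, ?_⟩
  intro m hm L hL d e hd he hde
  have hmu := H981.mu_pos
  have hm0 : (0 : ℝ) < m := by exact_mod_cast (by omega : 0 < m)
  have hm1 : (1 : ℝ) ≤ m := by exact_mod_cast (by omega : 1 ≤ m)
  have key : ∀ j ∈ Finset.range m,
      (nJ (Bx L 0) (side L 0 d) (side L 0 e) j : ℝ) * (1 / H981.mu) ^ j ≤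
      Real.exp (-(mass (1 / m) * L / 2) + 1 + (K1 + K2) * Real.log m ^ 2) := by
    intro j hj
    rw [Finset.mem_range] at hj
    have h3 := nJ_le_a (Bx L 0) (side L 0 d) (side L 0 e) j
    have e1 : (side L 0 e - side L 0 d).1 = L * (e.1 - d.1) := by
      unfold side
      simp only [Prod.fst_sub, Prod.fst_zero, zero_add]
      ring
    have e2 : (side L 0 e - side L 0 d).2 = L * (e.2 - d.2) := by
      unfold side
      simp only [Prod.snd_sub, Prod.snd_zero, zero_add]
      ring
    rw [e1, e2] at h3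
    obtain ⟨u, hu⟩ : ∃ u, u = e.1 - d.1 := ⟨_, rfl⟩
    obtain ⟨v, hv⟩ : ∃ v, v = e.2 - d.2 := ⟨_, rfl⟩
    rw [← hu, ← hv] at h3
    have huv : 1 ≤ |u| + |v| := by
      by_contra hcon
      have hu0 : |u| = 0 := by have := abs_nonneg u; have := abs_nonneg v; omega
      have hv0 : |v| = 0 := by have := abs_nonneg u; have := abs_nonneg v; omega
      rw [abs_eq_zero] at hu0 hv0
      exact hde (Prod.ext (by omega) (by omega))
    rcases Nat.lt_or_ge j 2 with hj2 | hj2
    · have h4 : TH795.EP.a j (L * u) (L * v) = 0 := by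
        apply Y981.L2X.a_zero_lt2
        rw [abs_mul, abs_mul, Nat.abs_cast, ← mul_add]
        have : (2 : ℤ) * 1 ≤ L * (|u| + |v|) :=
          mul_le_mul (by exact_mod_cast hL) huv (by norm_num) (by positivity)
        omega
      rw [h4] at h3
      have h5 : nJ (Bx L 0) (side L 0 d) (side L 0 e) j = 0 := by omega
      rw [h5]
      simp only [Nat.cast_zero, zero_mul]
      exact (Real.exp_pos _).le
    · have huv2 : 1 ≤ u ^ 2 + v ^ 2 := by
        have h5 : 0 ≤ u ^ 2 := sq_nonneg u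
        have h6 : 0 ≤ v ^ 2 := sq_nonneg v
        have h7 : u ≠ 0 ∨ v ≠ 0 := by
          by_contra hcon
          push Not at hcon
          rw [hcon.1, hcon.2] at huv
          simp at huv
        rcases h7 with h7 | h7
        · have := pow_pos (abs_pos.2 h7) 2
          rw [sq_abs] at this
          omega
        · have := pow_pos (abs_pos.2 h7) 2
          rw [sq_abs] at this
          omega
      have h4 : (L : ℝ) ≤ Real.sqrt (((L * u : ℤ) : ℝ) ^ 2 + ((L * v : ℤ) : ℝ) ^ 2) := by
        apply Real.le_sqrt_of_sq_le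
        have h8 : (1 : ℝ) ≤ (u : ℝ) ^ 2 + (v : ℝ) ^ 2 := by exact_mod_cast huv2
        push_cast
        nlinarith [sq_nonneg (L : ℝ)]
      have h5 := a_le_far (j := j) h4
      have h6 := h1 j hj2 L (1 / m) (by positivity)
      have h7 := h2 m hm j hj.le
      have hjm : (j : ℝ) ≤ m := by exact_mod_cast hj.le
      have hlog : Real.log j ^ 2 ≤ Real.log m ^ 2 := by
        apply pow_le_pow_left₀ (Real.log_natCast_nonneg j)
        exact Real.log_le_log (by exact_mod_cast (by omega : 0 < j)) hjm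
      have h3' : (nJ (Bx L 0) (side L 0 d) (side L 0 e) j : ℝ) ≤ TH795.EP.a j (L * u) (L * v) := by
        exact_mod_cast h3
      have hfar : 0 ≤ far j L := by
        unfold far
        positivity
      have h8 : (j : ℝ) * (1 / m) ≤ 1 := by
        rw [mul_one_div, div_le_one hm0]
        exact hjm
      unfold TH795.EP2.q at h7
      calc (nJ (Bx L 0) (side L 0 d) (side L 0 e) j : ℝ) * (1 / H981.mu) ^ j
          ≤ (TH795.EP.c j * far j L) * (1 / H981.mu) ^ j := by
            apply mul_le_mul_of_nonneg_right (h3'.trans h5) (by positivity)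
        _ ≤ (H981.mu ^ j * Real.exp (K2 * Real.log m ^ 2) *
            Real.exp (-(mass (1 / m) * L / 2) + j * (1 / m) + K1 * Real.log j ^ 2)) *
            (1 / H981.mu) ^ j := by
            apply mul_le_mul_of_nonneg_right _ (by positivity)
            exact mul_le_mul h7 h6 hfar (by positivity)
        _ = Real.exp (K2 * Real.log m ^ 2) *
            Real.exp (-(mass (1 / m) * L / 2) + j * (1 / m) + K1 * Real.log j ^ 2) := by
            rw [div_pow, one_pow]
            field_simp
        _ ≤ _ := by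
            rw [← Real.exp_add]
            apply Real.exp_le_exp.2
            nlinarith [mul_le_mul_of_nonneg_left hlog hK1]
  refine (Finset.sum_le_sum key).trans (le_of_eq ?_)
  rw [Finset.sum_const, Finset.card_range, nsmul_eq_mul]

end Pool.Agent.X144.Cp
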